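import Mathlib

set_option autoImplicit false

/-!
# Bookkeeping of pairs
-/

namespace Pool.Agent.H412.GP

open Finset

open Classical in
theorem core (A B : Finset ℂ) (o : ℂ → ℝ) (E PR : ℂ → Prop) (R : ℂ → ℂ → Prop) (M : ℝ)
    (ho0 : ∀ z, 0 ≤ o z) (hoB : ∀ z ∈ B, 1 ≤ o z)
    (hEA : ∀ w ∈ A, E w → o w = 1) (hEB : ∀ z ∈ B, E z → o z = 1)
    (hM : ∀ w ∈ A, ∑ z ∈ B.filter (fun z => R w z), o z ≤ M)
    (hF1 : ∀ w ∈ A, E w → ∀ z ∈ B, ∀ z' ∈ B, E z → E z' → R w z → R w z' → z = z')
    (hF2 : ∀ z ∈ B, ∀ w ∈ A, ∀ w' ∈ A, E w → E w' → R w z → R w' z → w = w')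
    (hP1 : ∀ w ∈ A, E w → ∀ z ∈ B, E z → R w z → PR w)
    (hP2 : ∀ w ∈ A, E w → PR w → ∃ z ∈ B, R w z) :
    |∑ w ∈ A, o w * ∑ z ∈ B.filter (fun z => R w z), o z - ∑ w ∈ A.filter PR, o w| ≤
      (M + 1) * ∑ w ∈ A.filter (fun w => ¬ E w), o w + ∑ z ∈ B.filter (fun z => ¬ E z), o z := by
  set p : ℂ → ℝ := fun w => ∑ z ∈ B.filter (fun z => R w z), o z with hp
  set ind : ℂ → ℝ := fun w => if PR w then 1 else 0 with hind
  set b : ℂ → ℝ := fun w => ∑ z ∈ B.filter (fun z => ¬ E z), if R w z then o z else 0 with hb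
  have hp0 : ∀ w, 0 ≤ p w := fun w => sum_nonneg fun z _ => ho0 z
  have hi0 : ∀ w, 0 ≤ ind w := fun w => by
    simp only [hind]
    split_ifs <;> norm_num
  have hi1 : ∀ w, ind w ≤ 1 := fun w => by
    simp only [hind]
    split_ifs <;> norm_num
  have h1 : ∑ w ∈ A, o w * p w - ∑ w ∈ A.filter PR, o w = ∑ w ∈ A, o w * (p w - ind w) := by
    rw [sum_filter, ← sum_sub_distrib]
    refine sum_congr rfl fun w _ => ?_
    simp only [hind]
    split_ifs <;> ring
  -- the decomposition of p
  have hpab : ∀ w, p w = ∑ z ∈ B.filter (fun z => R w z ∧ E z), o z + b w := by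
    intro w
    simp only [hp, hb]
    rw [← sum_filter_add_sum_filter_not (B.filter fun z => R w z) E, filter_filter, filter_filter]
    congr 1
    rw [← sum_filter, filter_filter]
    refine sum_congr ?_ fun _ _ => rfl
    ext z
    simp only [mem_filter]
    tauto
  have hkey : ∀ w ∈ A, E w → 0 ≤ p w - ind w ∧ p w - ind w ≤ b w := by
    intro w hw hE
    by_cases hne : ∃ z ∈ B, E z ∧ R w z
    · obtain ⟨z, hz, hEz, hRz⟩ := hne
      have hPR := hP1 w hw hE z hz hEz hRz
      have h2 : B.filter (fun z => R w z ∧ E z) = {z} := by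
        ext z'
        simp only [mem_filter, mem_singleton]
        constructor
        · rintro ⟨h3, h4, h5⟩
          exact hF1 w hw hE z' h3 z hz h5 hEz h4 hRz
        · rintro rfl
          exact ⟨hz, hRz, hEz⟩
      have h3 : p w = 1 + b w := by
        rw [hpab, h2, sum_singleton, hEB z hz hEz]
      have h4 : ind w = 1 := by simp only [hind, if_pos hPR]
      have h5 : 0 ≤ b w := sum_nonneg fun z _ => by
        split_ifs
        · exact ho0 z
        · exact le_rfl
      rw [h3, h4]
      constructor <;> linarith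
    · push Not at hne
      have h2 : B.filter (fun z => R w z ∧ E z) = ∅ := by
        ext z'
        simp only [mem_filter, notMem_empty, iff_false]
        rintro ⟨h3, h4, h5⟩
        exact hne z' h3 h5 h4
      have h3 : p w = b w := by
        rw [hpab, h2, sum_empty, zero_add]
      by_cases hPR : PR w
      · have h4 : ind w = 1 := by simp only [hind, if_pos hPR]
        obtain ⟨z, hz, hRz⟩ := hP2 w hw hE hPR
        have h5 : 1 ≤ p w := by
          refine (hoB z hz).trans ?_
          simp only [hp]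
          exact single_le_sum (f := o) (fun z _ => ho0 z) (mem_filter.2 ⟨hz, hRz⟩)
        rw [h4]
        constructor
        · linarith
        · rw [h3]
          linarith
      · have h4 : ind w = 0 := by simp only [hind, if_neg hPR]
        rw [h4, sub_zero]
        exact ⟨hp0 w, h3.le⟩
  have hsumb : ∑ w ∈ A.filter E, b w ≤ ∑ z ∈ B.filter (fun z => ¬ E z), o z := by
    simp only [hb]
    rw [sum_comm]
    refine sum_le_sum fun z hz => ?_
    rw [← sum_filter, sum_const, nsmul_eq_mul]
    have hzB := (mem_filter.1 hz).1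
    have h6 : ((A.filter E).filter fun w => R w z).card ≤ 1 := by
      rw [card_le_one]
      intro w hw w' hw'
      simp only [mem_filter] at hw hw'
      exact hF2 z hzB w hw.1.1 w' hw'.1.1 hw.1.2 hw'.1.2 hw.2 hw'.2
    have h7 : (((A.filter E).filter fun w => R w z).card : ℝ) ≤ 1 := by exact_mod_cast h6
    have := mul_le_mul_of_nonneg_right h7 (ho0 z)
    linarith
  rw [h1, ← sum_filter_add_sum_filter_not A E]
  refine (abs_add_le _ _).trans ?_
  have h8 : |∑ w ∈ A.filter E, o w * (p w - ind w)| ≤ ∑ z ∈ B.filter (fun z => ¬ E z), o z := by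
    rw [abs_of_nonneg]
    · refine le_trans (sum_le_sum fun w hw => ?_) hsumb
      obtain ⟨hw1, hw2⟩ := mem_filter.1 hw
      rw [hEA w hw1 hw2, one_mul]
      exact (hkey w hw1 hw2).2
    · refine sum_nonneg fun w hw => ?_
      obtain ⟨hw1, hw2⟩ := mem_filter.1 hw
      exact mul_nonneg (ho0 w) (hkey w hw1 hw2).1
  have h9 : |∑ w ∈ A.filter (fun w => ¬ E w), o w * (p w - ind w)| ≤
      (M + 1) * ∑ w ∈ A.filter (fun w => ¬ E w), o w := by
    refine (abs_sum_le_sum_abs _ _).trans ?_
    rw [mul_sum]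
    refine sum_le_sum fun w hw => ?_
    have hw1 := (mem_filter.1 hw).1
    rw [abs_mul, abs_of_nonneg (ho0 w), mul_comm]
    refine mul_le_mul_of_nonneg_right ?_ (ho0 w)
    have hm := hM w hw1
    rw [abs_le]
    have h10 := hp0 w
    have h11 := hi0 w
    have h12 := hi1 w
    have h13 : p w ≤ M := hm
    constructor <;> linarith
  linarith

end Pool.Agent.H412.GP
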