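import Mathlib

set_option autoImplicit false

/-!
# Real inequalities for the windows
-/

namespace Pool.Agent.H412.GP

/-- two points in one window are close -/
theorem geo1 {a z z' l lz y h p : ℝ} (hp : 0 < p) (hl : 0 < l) (hz : 0 < lz) (hlz : lz ≤ 3 / 2 * l)
    (hh : h ≤ 1 / 2) (h1 : y ≤ (z - a) * l / (2 * p)) (h2 : (z' - a) * l / (2 * p) ≤ y + h)
    (h3 : (1 - 1 / 100) * (2 * p / lz) ≤ z' - z) : False := by
  have hp2 : 0 < 2 * p := by linarith
  rw [le_div_iff₀ hp2] at h1
  rw [div_le_iff₀ hp2] at h2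
  have h4 : (z' - z) * l ≤ p := by nlinarith
  have h5 : (1 - 1 / 100) * (2 * p) ≤ (z' - z) * lz := by
    have h6 := mul_le_mul_of_nonneg_right h3 hz.le
    have h7 : (1 - 1 / 100) * (2 * p / lz) * lz = (1 - 1 / 100) * (2 * p) := by
      field_simp
    rw [h7] at h6
    exact h6
  have h8 : 0 ≤ z' - z := by
    by_contra hneg
    push Not at hneg
    nlinarith
  have h9 : (z' - z) * lz ≤ (z' - z) * (3 / 2 * l) := mul_le_mul_of_nonneg_left hlz h8
  nlinarith

/-- two starting points of windows with a common point are close -/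
theorem geo2 {w w' z l l' y h p T : ℝ} (hp : 3 < p) (hp' : p < 4) (hl : 1 ≤ l) (hll : l ≤ l')
    (hd : l' - l ≤ (w' - w) / T) (hT : 100 ≤ T) (hyl : y ≤ l') (hy : 0 ≤ y) (hh : h ≤ 1 / 2)
    (h1 : (z - w) * l / (2 * p) ≤ y + h) (h2 : y ≤ (z - w') * l' / (2 * p))
    (h3 : (1 - 1 / 100) * (2 * p / l) ≤ w' - w) : False := by
  have hp2 : 0 < 2 * p := by linarith
  have hl0 : 0 < l := by linarith
  have hl'0 : 0 < l' := by linarith
  rw [le_div_iff₀ hp2] at h2
  rw [div_le_iff₀ hp2] at h1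
  have h4 : 2 * p * y - 2 * p * (l' - l) ≤ (z - w') * l := by
    refine le_of_mul_le_mul_right ?_ hl'0
    have h5 : (l' - l) * y ≤ (l' - l) * l' := mul_le_mul_of_nonneg_left hyl (by linarith)
    have h6 : y * (2 * p) * l ≤ (z - w') * l' * l := mul_le_mul_of_nonneg_right h2 hl0.le
    nlinarith
  have hD : (1 - 1 / 100) * (2 * p) ≤ (w' - w) * l := by
    have h6 := mul_le_mul_of_nonneg_right h3 hl0.le
    have h7 : (1 - 1 / 100) * (2 * p / l) * l = (1 - 1 / 100) * (2 * p) := by
      field_simp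
    rw [h7] at h6
    exact h6
  have hD0 : 0 ≤ w' - w := by
    by_contra hneg
    push Not at hneg
    nlinarith
  have h8 : (w' - w) * l ≤ p + 2 * p * (l' - l) := by nlinarith
  have h9 : (w' - w) / T ≤ (w' - w) * l / 100 := by
    rw [div_le_div_iff₀ (by linarith) (by norm_num)]
    have h10 : 1 * 100 ≤ l * T := by nlinarith
    nlinarith
  set X := (w' - w) * l with hX
  have h11 : X ≤ p + 2 * p * (X / 100) := by nlinarith
  have h12 : X * (1 - p / 50) ≤ p := by linarith
  have h13 : (92 / 100 : ℝ) ≤ 1 - p / 50 := by linarith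
  have h14 : 0 ≤ X := by nlinarith
  nlinarith

end Pool.Agent.H412.GP
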