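import Pool.Agent.H487.GP.Stm3
import Pool.Agent.H412.GP.Core
import Pool.Agent.H412.GP.Geo

set_option autoImplicit false

/-!
# Project GP (helper487), job PAIRS: the number of all pairs
-/

open Finset Complex Filter Topology Metric Set MeasureTheory

namespace Pool.Agent.H412.GP

open Pool.Agent.Helper242.KK (FT Ph)
open Pool.Agent.H477.Jen
open Pool.Agent.H477.E
open Pool.Agent.H487.GA
open Pool.Agent.H487.ED (Ev)
open Pool.Agent.H487.GP

/-- the bound for the number of zeros near a point -/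
def UB (CU T1 : ℝ) : Prop := ∀ t : ℝ, T1 ≤ t → ∀ k : ℕ, (k : ℝ) ≤ Real.log t / 2 → ∀ S : Finset ℂ,
  (∀ w ∈ S, iteratedDeriv k (FT Ph) w = 0 ∧ ‖w - t‖ ≤ 2) → ∑ w ∈ S, ordk k w ≤ CU * Real.log t

theorem near {z : ℂ} {t : ℝ} (h1 : |z.re - t| ≤ 1) (h2 : |z.im| ≤ 1) : ‖z - t‖ ≤ 2 := by
  have h3 := Complex.norm_le_abs_re_add_abs_im (z - t)
  have h4 : (z - (t : ℂ)).re = z.re - t := by simp
  have h5 : (z - (t : ℂ)).im = z.im := by simp
  rw [h4, h5] at h3
  linarith

theorem log4 {T : ℝ} (hT : 16 ≤ T) : Real.log (4 * T) ≤ 3 / 2 * Real.log T := by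
  have h1 : Real.log (4 * T) = Real.log 4 + Real.log T :=
    Real.log_mul (by norm_num) (by linarith)
  have h2 : Real.log 16 ≤ Real.log T := Real.log_le_log (by norm_num) hT
  have h3 : Real.log 16 = 2 * Real.log 4 := by
    rw [show (16 : ℝ) = 4 ^ 2 by norm_num, Real.log_pow]
    norm_num
  linarith

/-- the zeros in a window -/
theorem win_bound {CU T1 : ℝ} (hCU : 0 < CU) (hU : UB CU T1) {T : ℝ} (hT1 : T1 ≤ T) (hT : 100 ≤ T) {k : ℕ}
    (hL4 : 4 ≤ Real.log T) (hk : (k : ℝ) ≤ Real.log T / 2) (hkT : 1 + (k : ℝ) ≤ T) {y h : ℝ} (hy1 : 1 ≤ y) (hyL : y ≤ Real.log T)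
    (hh0 : 0 ≤ h) (hh : h ≤ 1 / 2) {w : ℂ} (hw1 : T < w.re) (hw2 : w.re ≤ 2 * T) (S : Finset ℂ)
    (hS : ∀ z ∈ S, iteratedDeriv k (FT Ph) z = 0 ∧ T < z.re ∧ Wi y h w z) :
    ∑ z ∈ S, ordk k z ≤ CU * (3 / 2 * Real.log T) := by
  have hpi := Real.pi_pos
  have hpi3 := Real.pi_gt_three
  have hpi4 := Real.pi_lt_four
  have hl : Real.log T ≤ Real.log w.re := Real.log_le_log (by linarith) hw1.le
  have hl0 : 0 < Real.log w.re := by linarith
  set l := Real.log w.re with hldef
  set t : ℝ := w.re + y * (2 * Real.pi) / l with ht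
  have h1 : y * (2 * Real.pi) / l ≤ 2 * Real.pi := by
    rw [div_le_iff₀ hl0]
    nlinarith
  have h0 : 0 ≤ y * (2 * Real.pi) / l := by positivity
  have htT : T ≤ t := by linarith
  have ht4 : t ≤ 4 * T := by linarith
  have hlogt : Real.log T ≤ Real.log t := Real.log_le_log (by linarith) htT
  have h2 := hU t (hT1.trans htT) k (by linarith) S (fun z hz => by
    obtain ⟨hz0, hzT, hz1, hz2⟩ := hS z hz
    refine ⟨hz0, near ?_ (strip_im_one k z hz0 (by linarith))⟩
    rw [le_div_iff₀ (by positivity)] at hz1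
    rw [div_le_iff₀ (by positivity)] at hz2
    have h3 : y * (2 * Real.pi) / l ≤ z.re - w.re := by
      rw [div_le_iff₀ hl0]
      exact hz1
    have h4 : z.re - w.re ≤ (y + h) * (2 * Real.pi) / l := by
      rw [le_div_iff₀ hl0]
      exact hz2
    have h5 : (y + h) * (2 * Real.pi) / l ≤ y * (2 * Real.pi) / l + 1 := by
      rw [add_mul, add_div]
      have h6 : h * (2 * Real.pi) / l ≤ 1 := by
        rw [div_le_one hl0]
        nlinarith
      linarith
    rw [abs_le]
    constructor <;> linarith)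
  refine h2.trans (mul_le_mul_of_nonneg_left ?_ hCU.le)
  exact (Real.log_le_log (by linarith) ht4).trans (log4 (by linarith))

/-- the number of the zeros in the next dyadic block -/
theorem blk_bound {CU T1 : ℝ} (hCU : 0 < CU) (hU : UB CU T1) {T : ℝ} (hT1 : T1 ≤ T) (hT : 100 ≤ T) {k : ℕ}
    (hk : (k : ℝ) ≤ Real.log T / 2) (hkT : 1 + (k : ℝ) ≤ T) :
    ∑ z ∈ ZD k (fun _ => True) (2 * T), ordk k z ≤ 10 * CU * (T * Real.log T) := by
  classical
  have hL0 : 0 < Real.log T := Real.log_pos (by linarith)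
  have hT2 : (0 : ℝ) ≤ 2 * T := by linarith
  have hmaps : ∀ z ∈ ZD k (fun _ => True) (2 * T), ⌊z.re⌋₊ ∈ Finset.range (⌊4 * T⌋₊ + 1) := by
    intro z hz
    obtain ⟨-, -, h3, -⟩ := (mem_ZD hT2).1 hz
    rw [Finset.mem_range]
    exact Nat.lt_succ_of_le (Nat.floor_le_floor (by linarith))
  rw [← Finset.sum_fiberwise_of_maps_to hmaps]
  have hfib : ∀ j ∈ Finset.range (⌊4 * T⌋₊ + 1),
      ∑ z ∈ (ZD k (fun _ => True) (2 * T)).filter (fun z => ⌊z.re⌋₊ = j), ordk k z ≤
        CU * (3 / 2 * Real.log T) := by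
    intro j hj
    rcases ((ZD k (fun _ => True) (2 * T)).filter (fun z => ⌊z.re⌋₊ = j)).eq_empty_or_nonempty with he | ⟨z0, hz0⟩
    · rw [he, Finset.sum_empty]
      positivity
    · obtain ⟨hz1, hz2⟩ := Finset.mem_filter.1 hz0
      obtain ⟨-, h2, h3, -⟩ := (mem_ZD hT2).1 hz1
      have h4 : z0.re < (j : ℝ) + 1 := by
        rw [← hz2]
        exact Nat.lt_floor_add_one _
      have h5 : (j : ℝ) ≤ z0.re := by
        rw [← hz2]
        exact Nat.floor_le (by linarith)
      have hjT : T ≤ (j : ℝ) := by linarith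
      have hlogj : Real.log T ≤ Real.log (j : ℝ) := Real.log_le_log (by linarith) hjT
      have h6 := hU (j : ℝ) (hT1.trans hjT) k (by linarith)
        ((ZD k (fun _ => True) (2 * T)).filter (fun z => ⌊z.re⌋₊ = j)) (fun z hz => by
          obtain ⟨hz3, hz4⟩ := Finset.mem_filter.1 hz
          obtain ⟨g1, g2, g3, -⟩ := (mem_ZD hT2).1 hz3
          refine ⟨g1, near ?_ (strip_im_one k z g1 (by linarith))⟩
          have h7 : z.re < (j : ℝ) + 1 := by
            rw [← hz4]
            exact Nat.lt_floor_add_one _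
          have h8 : (j : ℝ) ≤ z.re := by
            rw [← hz4]
            exact Nat.floor_le (by linarith)
          rw [abs_le]
          constructor <;> linarith)
      refine h6.trans (mul_le_mul_of_nonneg_left ?_ hCU.le)
      exact (Real.log_le_log (by linarith) (show (j : ℝ) ≤ 4 * T by linarith)).trans (log4 (by linarith))
  refine (Finset.sum_le_sum hfib).trans ?_
  rw [Finset.sum_const, Finset.card_range, nsmul_eq_mul]
  have h9 : ((⌊4 * T⌋₊ + 1 : ℕ) : ℝ) ≤ 5 * T := by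
    push_cast
    have := Nat.floor_le (show (0 : ℝ) ≤ 4 * T by linarith)
    linarith
  have h10 : 0 ≤ CU * (3 / 2 * Real.log T) := by positivity
  refine (mul_le_mul_of_nonneg_right h9 h10).trans ?_
  have h11 : 0 ≤ CU * (T * Real.log T) := by positivity
  nlinarith

/-- `Ev` zeros in one window -/
theorem f1 {T : ℝ} (hT : 100 ≤ T) {k : ℕ} {y h : ℝ} (hh : h ≤ 1 / 2) {w z z' : ℂ} (hw1 : T < w.re)
    (hz0 : iteratedDeriv k (FT Ph) z = 0) (hz1 : iteratedDeriv k (FT Ph) z' = 0) (hzT : T < z.re) (hz4 : z.re ≤ 4 * T)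
    (hE : Ev (1 / 100) k z) (hW : Wi y h w z) (hW' : Wi y h w z') : ¬ z.re < z'.re := by
  intro hlt
  obtain ⟨b, h1, h2, h3, h4, h5⟩ := Ev_next hE (by linarith) hz0
  have h6 := h3 z' hz1 hlt
  have hL : 0 < Real.log T := Real.log_pos (by linarith)
  have hl : Real.log T ≤ Real.log w.re := Real.log_le_log (by linarith) hw1.le
  have hlz : Real.log z.re ≤ 3 / 2 * Real.log T :=
    (Real.log_le_log (by linarith) hz4).trans (log4 (by linarith))
  have hlz0 : 0 < Real.log z.re := Real.log_pos (by linarith)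
  exact geo1 Real.pi_pos (by linarith) hlz0 (by linarith) hh hW.1 hW'.2 (by linarith)

/-- `Ev` zeros whose windows contain the same point -/
theorem f2 {T : ℝ} (hT : 100 ≤ T) {k : ℕ} {y h : ℝ} (hy1 : 1 ≤ y) (hyL : y ≤ Real.log T) (hh : h ≤ 1 / 2) {w w' z : ℂ}
    (hw1 : T < w.re) (hz0 : iteratedDeriv k (FT Ph) w = 0) (hz1 : iteratedDeriv k (FT Ph) w' = 0)
    (hE : Ev (1 / 100) k w) (hW : Wi y h w z) (hW' : Wi y h w' z) : ¬ w.re < w'.re := by
  intro hlt
  obtain ⟨b, h1, h2, h3, h4, h5⟩ := Ev_next hE (by linarith) hz0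
  have h6 := h3 w' hz1 hlt
  have hl : Real.log T ≤ Real.log w.re := Real.log_le_log (by linarith) hw1.le
  have hl' : Real.log w.re ≤ Real.log w'.re := Real.log_le_log (by linarith) hlt.le
  have hd : Real.log w'.re - Real.log w.re ≤ (w'.re - w.re) / T := by
    rw [← Real.log_div (by linarith) (by linarith)]
    refine (Real.log_le_sub_one_of_pos (div_pos (by linarith) (by linarith))).trans ?_
    rw [div_sub_one (by linarith)]
    exact div_le_div_of_nonneg_left (by linarith) (by linarith) hw1.le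
  exact geo2 Real.pi_gt_three Real.pi_lt_four (by linarith) hl' hd hT (by linarith) (by linarith) hh hW.2 hW'.1
    (by linarith)

theorem pairs_proof (hD : Pool.Agent.H487.ED.S_DYA) (hUU : Pool.Agent.H477.E.S_UNITU) (hLN : S_LOWN) : S_PAIRS := by
  classical
  intro s1 ε hs1 hε
  obtain ⟨CU, T1, hCU, hU0⟩ := hUU
  have hU : UB CU T1 := hU0
  obtain ⟨c, CD, T2, hc, hDY⟩ := hD (1 / 100) (by norm_num)
  obtain ⟨k0, δ0, T3, hδ0, hLOW⟩ := hLN
  set CD' : ℝ := max CD 1 with hCD'
  have hCD1 : 1 ≤ CD' := le_max_right _ _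
  set δ : ℝ := min δ0 (min (1 / 400) (1 / s1)) with hδ
  have hδpos : 0 < δ := lt_min hδ0 (lt_min (by norm_num) (by positivity))
  set K1 : ℝ := (3 * CU + 2) * CD' * (1 + 100 * CU) with hK1
  have hK1pos : 0 < K1 := by positivity
  -- the eventual conditions
  have hev : ∀ᶠ T : ℝ in atTop, T1 ≤ T ∧ T2 ≤ T ∧ T3 ≤ T ∧ 100 ≤ T ∧ 4 ≤ Real.log T ∧ K1 / ε ≤ Real.log T ∧
      (k0 : ℝ) * c / 2 ≤ Real.log (Real.log T) ∧ Real.log T ≤ T := by
    have hlog := Real.tendsto_log_atTop
    filter_upwards [eventually_ge_atTop T1, eventually_ge_atTop T2, eventually_ge_atTop T3, eventually_ge_atTop (100 : ℝ),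
      hlog.eventually_ge_atTop 4, hlog.eventually_ge_atTop (K1 / ε),
      (hlog.comp hlog).eventually_ge_atTop ((k0 : ℝ) * c / 2)] with T a1 a2 a3 a4 a5 a6 a7
    exact ⟨a1, a2, a3, a4, a5, a6, a7, (Real.log_le_sub_one_of_pos (by linarith)).trans (by linarith)⟩
  obtain ⟨T0, hT0⟩ := eventually_atTop.1 hev
  refine ⟨2 / c, δ, T0, hδpos, ?_⟩
  intro T hT k hk1 hk2 y h hy1 hy2 hh0 hh
  obtain ⟨a1, a2, a3, a4, a5, a6, a7, a8⟩ := hT0 T hT
  set L := Real.log T with hL
  have hT0' : (0 : ℝ) ≤ T := by linarith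
  have hT2' : (0 : ℝ) ≤ 2 * T := by linarith
  have hLpos : 0 < L := by linarith
  have hkδ0 : (k : ℝ) ≤ δ0 * L := hk2.trans (mul_le_mul_of_nonneg_right (min_le_left _ _) hLpos.le)
  have hk400 : (k : ℝ) ≤ 1 / 400 * L := hk2.trans
    (mul_le_mul_of_nonneg_right ((min_le_right _ _).trans (min_le_left _ _)) hLpos.le)
  have hks : (k : ℝ) ≤ 1 / s1 * L := hk2.trans
    (mul_le_mul_of_nonneg_right ((min_le_right _ _).trans (min_le_right _ _)) hLpos.le)
  have hyL : y ≤ L := by
    refine hy2.trans ?_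
    have := mul_le_mul_of_nonneg_left hks hs1.le
    have h1 : s1 * (1 / s1 * L) = L := by field_simp
    linarith
  have hkT : 1 + (k : ℝ) ≤ T := by linarith
  have hk0' : (k0 : ℝ) ≤ k := by
    have h1 : (k0 : ℝ) = 2 / c * ((k0 : ℝ) * c / 2) := by field_simp
    rw [h1]
    exact (mul_le_mul_of_nonneg_left a7 (by positivity)).trans hk1
  -- N
  set N := ∑ w ∈ ZD k (fun _ => True) T, ordk k w with hN
  have hN0 : 0 ≤ N := Finset.sum_nonneg fun w _ => ordk_nonneg k w
  have hlow : T * L / 10 ≤ N := hLOW T a3 k (by exact_mod_cast hk0') hkδ0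
  set N2 := ∑ w ∈ ZD k (fun _ => True) (2 * T), ordk k w with hN2
  have hN2le : N2 ≤ 100 * CU * N := by
    have h1 := blk_bound hCU hU a1 a4 (k := k) (by linarith) hkT
    have h2 := mul_le_mul_of_nonneg_left hlow (show 0 ≤ 100 * CU by positivity)
    have h3 : 100 * CU * (T * L / 10) = 10 * CU * (T * L) := by ring
    linarith
  -- the bad zeros
  have hq : ∀ X : ℝ, T ≤ X → (0 : ℝ) ≤ X → ∑ w ∈ ZD k (fun w => ¬ Ev (1 / 100) k w) X, ordk k w ≤
      CD' * Real.exp (-c * k) * ∑ w ∈ ZD k (fun _ => True) X, ordk k w := by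
    intro X hX hX0
    have h1 := hDY X (a2.trans hX) k (by
      have : L ≤ Real.log X := Real.log_le_log (by linarith) hX
      linarith)
    rw [cnt_ZD k _ hX0, cnt_ZD k _ hX0] at h1
    refine h1.trans ?_
    have h2 : 0 ≤ ∑ w ∈ ZD k (fun _ => True) X, ordk k w := Finset.sum_nonneg fun w _ => ordk_nonneg k w
    exact mul_le_mul_of_nonneg_right (mul_le_mul_of_nonneg_right (le_max_left _ _) (Real.exp_pos _).le) h2
  set q := CD' * Real.exp (-c * k) with hqdef
  have hq0 : 0 ≤ q := by positivity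
  have hqL : q * (L * L) ≤ CD' := by
    have h1 : 2 * Real.log L ≤ c * k := by
      have h2 := mul_le_mul_of_nonneg_left hk1 hc.le
      have h3 : c * (2 / c * Real.log L) = 2 * Real.log L := by field_simp
      linarith
    have h2 : Real.exp (-c * k) ≤ Real.exp (-(2 * Real.log L)) := Real.exp_le_exp.2 (by linarith)
    have h3 : Real.exp (-(2 * Real.log L)) = (L * L)⁻¹ := by
      rw [Real.exp_neg, two_mul, Real.exp_add, Real.exp_log hLpos]
    rw [h3] at h2
    have h4 : Real.exp (-c * k) * (L * L) ≤ 1 := by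
      have h5 := mul_le_mul_of_nonneg_right h2 (show 0 ≤ L * L by positivity)
      rwa [inv_mul_cancel₀ (by positivity)] at h5
    rw [hqdef, mul_assoc]
    exact (mul_le_mul_of_nonneg_left h4 (by linarith)).trans (by linarith)
  -- the sets
  set A := ZD k (fun _ => True) T with hA
  set B := ZD k (fun _ => True) T ∪ ZD k (fun _ => True) (2 * T) with hB
  have memA : ∀ w, w ∈ A ↔ iteratedDeriv k (FT Ph) w = 0 ∧ T < w.re ∧ w.re ≤ 2 * T := by
    intro w
    rw [hA, mem_ZD hT0']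
    tauto
  have memB : ∀ w, w ∈ B ↔ iteratedDeriv k (FT Ph) w = 0 ∧ T < w.re ∧ w.re ≤ 4 * T := by
    intro w
    rw [hB, Finset.mem_union, mem_ZD hT0', mem_ZD hT2']
    constructor
    · rintro (⟨h1, h2, h3, -⟩ | ⟨h1, h2, h3, -⟩)
      · exact ⟨h1, h2, by linarith⟩
      · exact ⟨h1, by linarith, by linarith⟩
    · rintro ⟨h1, h2, h3⟩
      rcases le_or_gt w.re (2 * T) with h4 | h4
      · exact Or.inl ⟨h1, h2, h4, trivial⟩
      · exact Or.inr ⟨h1, h4, by linarith, trivial⟩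
  have hright : ∀ w z : ℂ, T < w.re → Wi y h w z → w.re < z.re := by
    intro w z hw hW
    have h1 := hW.1
    have hl : 0 < Real.log w.re := Real.log_pos (by linarith)
    rw [le_div_iff₀ (by positivity)] at h1
    have h2 : 0 < y * (2 * Real.pi) := by positivity
    by_contra hcon
    push Not at hcon
    nlinarith
  have hpc : ∀ w ∈ A, pc k T y h w = ∑ z ∈ B.filter (fun z => Wi y h w z), ordk k z := by
    intro w hw
    have hw' := (memA w).1 hw
    unfold pc
    refine Finset.sum_congr ?_ fun _ _ => rfl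
    ext z
    rw [mem_cfil, Finset.mem_filter, memB, Set.Finite.mem_toFinset]
    constructor
    · rintro ⟨⟨h1, h2, h3⟩, h4⟩
      exact ⟨⟨h1, hw'.2.1.trans (hright w z hw'.2.1 h4), h3⟩, h4⟩
    · rintro ⟨⟨h1, h2, h3⟩, h4⟩
      exact ⟨⟨h1, by linarith, h3⟩, h4⟩
  have hS1 : ∑ w ∈ A, ordk k w * pc k T y h w =
      ∑ w ∈ A, ordk k w * ∑ z ∈ B.filter (fun z => Wi y h w z), ordk k z :=
    Finset.sum_congr rfl fun w hw => by rw [hpc w hw]
  have hS2 : ∑ w ∈ ZD k (PRR y h k) T, ordk k w = ∑ w ∈ A.filter (PRR y h k), ordk k w := by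
    refine Finset.sum_congr ?_ fun _ _ => rfl
    ext w
    rw [mem_ZD hT0', Finset.mem_filter, memA]
    tauto
  have hcore := core A B (ordk k) (Ev (1 / 100) k) (PRR y h k) (Wi y h) (CU * (3 / 2 * L))
    (fun z => ordk_nonneg k z) (fun z hz => ordk_one k ((memB z).1 hz).1)
    (fun w hw hE => ordk_simple ((memA w).1 hw).1 hE.2.1)
    (fun w hw hE => ordk_simple ((memB w).1 hw).1 hE.2.1)
    (fun w hw => by
      have hw' := (memA w).1 hw
      exact win_bound hCU hU a1 a4 a5 (by linarith) hkT hy1 hyL hh0 hh hw'.2.1 hw'.2.2 _ (fun z hz => by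
        obtain ⟨h1, h2⟩ := Finset.mem_filter.1 hz
        exact ⟨((memB z).1 h1).1, ((memB z).1 h1).2.1, h2⟩))
    (fun w hw _ z hz z' hz' hE hE' hW hW' => by
      have hw' := (memA w).1 hw
      have g := (memB z).1 hz
      have g' := (memB z').1 hz'
      have h1 := f1 a4 hh hw'.2.1 g.1 g'.1 g.2.1 g.2.2 hE hW hW'
      have h2 := f1 a4 hh hw'.2.1 g'.1 g.1 g'.2.1 g'.2.2 hE' hW' hW
      apply Complex.ext
      · exact le_antisymm (not_lt.1 h2) (not_lt.1 h1)
      · rw [hE.1, hE'.1])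
    (fun z _ w hw w' hw' hE hE' hW hW' => by
      have g := (memA w).1 hw
      have g' := (memA w').1 hw'
      have h1 := f2 a4 hy1 hyL hh g.2.1 g.1 g'.1 hE hW hW'
      have h2 := f2 a4 hy1 hyL hh g'.2.1 g'.1 g.1 hE' hW' hW
      apply Complex.ext
      · exact le_antisymm (not_lt.1 h2) (not_lt.1 h1)
      · rw [hE.1, hE'.1])
    (fun w _ hE z hz hEz hW => by
      refine ⟨hE.1, z.re, ?_, ?_⟩
      · rw [real_eq hEz.1]
        exact ((memB z).1 hz).1
      · rw [real_eq hEz.1]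
        exact hW)
    (fun w hw _ hP => by
      obtain ⟨_, g, h1, h2⟩ := hP
      have hw' := (memA w).1 hw
      have h3 := hright w g hw'.2.1 h2
      refine ⟨(g : ℂ), (memB _).2 ⟨h1, hw'.2.1.trans h3, ?_⟩, h2⟩
      have h4 := h2.2
      have hl : L ≤ Real.log w.re := Real.log_le_log (by linarith) hw'.2.1.le
      have hl0 : 0 < Real.log w.re := by linarith
      rw [div_le_iff₀ (by positivity)] at h4
      have h5 : ((g : ℂ).re - w.re) ≤ 10 := by
        refine le_of_mul_le_mul_right ?_ hl0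
        refine h4.trans ?_
        have hpi4 := Real.pi_lt_d2
        have hpi := Real.pi_pos
        have h6 : (y + h) * (2 * Real.pi) ≤ (9 / 8 * Real.log w.re) * (2 * Real.pi) :=
          mul_le_mul_of_nonneg_right (by linarith) (by positivity)
        nlinarith
      linarith)
  -- the final estimate
  have hQA : ∑ w ∈ A.filter (fun w => ¬ Ev (1 / 100) k w), ordk k w ≤ q * N := by
    have h1 : A.filter (fun w => ¬ Ev (1 / 100) k w) = ZD k (fun w => ¬ Ev (1 / 100) k w) T := by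
      ext w
      rw [Finset.mem_filter, memA, mem_ZD hT0']
      tauto
    rw [h1]
    exact hq T le_rfl hT0'
  have hQB : ∑ w ∈ B.filter (fun w => ¬ Ev (1 / 100) k w), ordk k w ≤ q * N + q * N2 := by
    have h1 : B.filter (fun w => ¬ Ev (1 / 100) k w) =
        ZD k (fun w => ¬ Ev (1 / 100) k w) T ∪ ZD k (fun w => ¬ Ev (1 / 100) k w) (2 * T) := by
      ext w
      rw [hB, Finset.mem_filter, Finset.mem_union, Finset.mem_union, mem_ZD hT0', mem_ZD hT2', mem_ZD hT0', mem_ZD hT2']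
      tauto
    rw [h1]
    have h2 := Finset.sum_union_inter (s₁ := ZD k (fun w => ¬ Ev (1 / 100) k w) T)
      (s₂ := ZD k (fun w => ¬ Ev (1 / 100) k w) (2 * T)) (f := ordk k)
    have h3 : 0 ≤ ∑ w ∈ ZD k (fun w => ¬ Ev (1 / 100) k w) T ∩ ZD k (fun w => ¬ Ev (1 / 100) k w) (2 * T), ordk k w :=
      Finset.sum_nonneg fun w _ => ordk_nonneg k w
    have h4 := hq T le_rfl hT0'
    have h5 := hq (2 * T) (by linarith) hT2'
    linarith
  rw [hS1, hS2]
  refine hcore.trans ?_
  have hM0 : 0 ≤ CU * (3 / 2 * L) + 1 := by positivity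
  have e1 : (CU * (3 / 2 * L) + 1) * ∑ w ∈ A.filter (fun w => ¬ Ev (1 / 100) k w), ordk k w ≤
      (CU * (3 / 2 * L) + 1) * (q * N) := mul_le_mul_of_nonneg_left hQA hM0
  have e2 : q * N2 ≤ q * (100 * CU * N) := mul_le_mul_of_nonneg_left hN2le hq0
  have e3 : (CU * (3 / 2 * L) + 1) * (q * N) + (q * N + q * (100 * CU * N)) ≤ K1 / L * N := by
    have e5 : (CU * (3 / 2 * L) + 1) * (q * N) + (q * N + q * (100 * CU * N)) ≤
        (3 * CU + 2) * L * (1 + 100 * CU) * (q * N) := by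
      have e6 : 0 ≤ q * N := mul_nonneg hq0 hN0
      have e7 : (CU * (3 / 2 * L) + 1) + (1 + 100 * CU) ≤ (3 * CU + 2) * L * (1 + 100 * CU) := by
        have e8 : 1 ≤ L := by linarith
        have g0 : 0 < CU * L := mul_pos hCU hLpos
        have g1 : CU * (3 / 2 * L) + 2 ≤ (3 * CU + 2) * L := by linarith
        have g2 : 1 ≤ (3 * CU + 2) * L := by linarith
        have g3 : 1 * (100 * CU) ≤ (3 * CU + 2) * L * (100 * CU) :=
          mul_le_mul_of_nonneg_right g2 (by linarith)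
        have g4 : (3 * CU + 2) * L * (1 + 100 * CU) = (3 * CU + 2) * L + (3 * CU + 2) * L * (100 * CU) := by ring
        linarith
      have e9 := mul_le_mul_of_nonneg_right e7 e6
      have e10 : (CU * (3 / 2 * L) + 1 + (1 + 100 * CU)) * (q * N) =
          (CU * (3 / 2 * L) + 1) * (q * N) + (q * N + q * (100 * CU * N)) := by ring
      linarith
    refine e5.trans ?_
    have e11 : q * L ≤ CD' / L := by
      rw [le_div_iff₀ hLpos]
      linarith
    have e12 : (3 * CU + 2) * L * (1 + 100 * CU) * (q * N) =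
        ((3 * CU + 2) * (1 + 100 * CU) * N) * (q * L) := by ring
    rw [e12]
    have e13 : 0 ≤ (3 * CU + 2) * (1 + 100 * CU) * N := by positivity
    refine (mul_le_mul_of_nonneg_left e11 e13).trans (le_of_eq ?_)
    rw [hK1]
    ring
  have e14 : K1 / L ≤ ε := by
    rw [div_le_iff₀ hLpos]
    rw [div_le_iff₀ hε] at a6
    linarith
  have e15 := mul_le_mul_of_nonneg_right e14 hN0
  linarith

end Pool.Agent.H412.GP
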